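import Pool.Agent.H42.SofEx

/-! # A non-sofic monoid whose units and orbit quotients are sofic

This is the negative answer to Q1 of MP_3452f1_al (paper argument: helper96).

The definitions used are
* `Pool.Agent.H42.Sof.IsSofic` (in `Pool/Agent/H42/SofMain.lean`): sofic monoids, exactly as in the
  problem file;
* `Pool.Agent.H42.Sof.jOne` (in `Pool/Agent/H42/SofMon.lean`): the `J`-class of `1`, the set of all
  `m` with `M m M = M`;
* `Pool.Agent.H42.Sof.orbitStab` (in `Pool/Agent/H42/SofMon.lean`): for `x : M` the normal subgroup
  `N_O` of the group of units `Mˣ`, where `O = x Mˣ` is the orbit of `x` under right translation.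

The monoid is `M = (F × G) ∪ (H \ G) ∪ {0}` with `F` the free monoid on the six pairs `(i, j)`,
`G = (⊕_{ℤ³} ℤ/2) ⋊ SL₃(ℤ)` and `H` the subgroup of the functions supported in the nonzero vectors
with nonnegative coordinates; the letter `(i, j)` maps `H g` to `H (1 + E i j) g`. -/

namespace Pool.Agent.Results.MP_3452f1_al.NotSofic

open Pool.Agent.H42.Sof

/-- There is a monoid `M` whose `J`-class of the identity is its group of units, such that this
group is sofic and all its quotients by pointwise stabilisers of orbits of the right translation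
action are sofic (every such stabiliser is even trivial or the whole group), but `M` is not
sofic. -/
theorem result : ∃ (M : Type) (_ : Monoid M),
    jOne M = {m : M | IsUnit m} ∧
    IsSofic Mˣ ∧
    (∀ x : M, IsSofic (Mˣ ⧸ orbitStab M x)) ∧
    (∀ x : M, orbitStab M x = ⊥ ∨ orbitStab M x = ⊤) ∧
    ¬ IsSofic M := by
  refine ⟨MM, inferInstance, Mon.jOne_eq PP_units, units_sofic, quot_sofic, ?_, MM_not_sofic⟩
  rintro (⟨p, g⟩ | o | _)
  · exact Or.inl (stab_u p g)
  · exact Or.inl (stab_c o)
  · exact Or.inr stab_z

end Pool.Agent.Results.MP_3452f1_al.NotSofic
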